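import Pool.Agent.MWLE.StmtsA

/-!
# Squad MWLE, row XFS: the first facts about `x` and `y`
-/

set_option autoImplicit false

namespace Pool.Agent.MWLE.H33

open Pool.Agent.Helper14_MV Pool.Agent.Helper2_MV
open Pool.Agent.MWK (pre Gw)
open Pool.Agent.MWF (Ap gaml dbl)
open Pool.Agent.MWGN (nn Gz E0 P0 A0 Tau gh)

theorem kk_refl (β : FIC) (σ : List ℕ) (m e : ℕ) : KK β σ m e (wd σ m false false) :=
  RR.refl _

theorem head_le {σ τ : List ℕ} {m : ℕ} (h : Sg σ τ m) : σ.headD 0 ≤ 2 * m + 2 := by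
  cases σ with
  | nil => simp
  | cons a σ => exact (h.me a).1 (by simp)

theorem sep_mod (k : ℕ) : sep k % 5 ≠ 4 := by
  unfold sep
  omega

theorem pin_mod (k : ℕ) : pin k % 5 ≠ 4 := by
  unfold pin
  omega

theorem con_mod (k : ℕ) : con k % 5 = 4 := by
  unfold con
  omega

theorem sep_ne (k e : ℕ) (he : e ≤ 1) : sep k ≠ e := by
  unfold sep
  omega

theorem pin_ne (k e : ℕ) (he : e ≤ 1) : pin k ≠ e := by
  unfold pin
  omega

/-- the facts for a letter `x` which is not a content -/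
theorem main1 (pst : PstStmt) (olr : MWGN.OlrStmt) (tlr : MWGN.TlrStmt) (ctt : MWF.CttStmt)
    (sim : MWF.SimStmt) {β : FIC} (hG : Gz β) (hE : ¬ E0 β) (hP : ¬ P0 β) {σ τ : List ℕ} {m e : ℕ}
    (he : e ≤ 1) (hS : Sg σ τ m) {W : List ℕ} (hK : KK β σ m e W) (f1 : Fc σ m (wd σ m false false))
    (f : Fc σ m W) (x j : ℕ) (hx1 : x ≤ 1) (hxe : x ≠ e) (hj : j ≤ 2 * m + 2)
    (c2 : (wd σ m false false).count x = 2) (n2 : nn (wd σ m false false) x (t1 σ) = 2)
    (n1 : nn (wd σ m false false) x (pin j) = 1) :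
    2 ≤ W.count x ∧ nn W x (t1 σ) = W.count x ∧ 1 ≤ nn W x (pin j) := by
  have hh := head_le hS
  obtain ⟨pa, _, _, pd, _, _⟩ := pst e W he
  obtain ⟨qa, _, _, qd, _, _⟩ := pst e (wd σ m false false) he
  have hx4 : x % 5 ≠ 4 := by omega
  have cW := pa x hxe hx4
  have cw := qa x hxe hx4
  have hmem : x ∈ W.flatMap (psi e) := by
    rw [ctt β hG.gw.ap _ _ hK x, ← List.count_pos_iff, cw, c2]
    omega
  have h2 : 2 ≤ W.count x := by
    rw [← cW]
    have h0 := List.count_pos_iff.2 hmem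
    by_contra hlt
    have h1 : (W.flatMap (psi e)).count x = 1 := by omega
    have h3 := sim β hG.gw.ap _ _ hK x h1
    rw [cw, c2] at h3
    omega
  have st : t1 σ = sep (σ.headD 0) := rfl
  have sW : (W.flatMap (psi e)).count (t1 σ) = 1 := by
    rw [st, pa _ (sep_ne _ e he) (sep_mod _)]
    exact f.s1 _ hh
  have sw : ((wd σ m false false).flatMap (psi e)).count (t1 σ) = 1 := by
    rw [st, qa _ (sep_ne _ e he) (sep_mod _)]
    exact f1.s1 _ hh
  have hxs : x ≠ t1 σ := by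
    rw [st]
    intro h
    exact sep_ne (σ.headD 0) x hx1 h.symm
  have h3 : nn W x (t1 σ) = W.count x := by
    have h4 := (olr β hG.gw hE _ _ hK.symm x (t1 σ) sw hxs).2.2.1 (by
      rw [qd x (t1 σ) hxe (by rw [st]; exact sep_ne _ e he) hx4 (by rw [st]; exact sep_mod _), cw,
        n2, c2])
    rw [pd x (t1 σ) hxe (by rw [st]; exact sep_ne _ e he) hx4 (by rw [st]; exact sep_mod _),
      cW] at h4
    exact h4
  refine ⟨h2, h3, ?_⟩
  by_contra hlt
  have h0 : nn W x (pin j) = 0 := by omega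
  have h5 := (tlr β hG.gw hE hP _ _ hK x (pin j) (t1 σ) sW (by rw [cW]; exact h2)
    (by rw [pa _ (pin_ne _ e he) (pin_mod _)]; exact f.p2 j hj)
    (by
      rw [pd (pin j) (t1 σ) (pin_ne _ e he) (by rw [st]; exact sep_ne _ e he) (pin_mod _)
        (by rw [st]; exact sep_mod _)]
      exact f.pt j hj)
    (by
      rw [pd x (t1 σ) hxe (by rw [st]; exact sep_ne _ e he) hx4 (by rw [st]; exact sep_mod _), cW]
      exact h3)).2.1 (by
        rw [pd x (pin j) hxe (pin_ne _ e he) hx4 (pin_mod _)]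
        exact h0)
  rw [qd x (pin j) hxe (pin_ne _ e he) hx4 (pin_mod _), n1] at h5
  omega

/-- the facts for a content `x` -/
theorem main2 (pst : PstStmt) (tlr : MWGN.TlrStmt) (ctt : MWF.CttStmt)
    {β : FIC} (hG : Gz β) (hE : ¬ E0 β) (hP : ¬ P0 β) {σ τ : List ℕ} {m e : ℕ}
    (he : e ≤ 1) (hS : Sg σ τ m) {W : List ℕ} (hK : KK β σ m e W) (f1 : Fc σ m (wd σ m false false))
    (f : Fc σ m W) (hf : ∀ c ∈ W, c % 5 = 4 → nn W c (t1 σ) = W.count c) (x j : ℕ)
    (hx4 : x % 5 = 4) (hj : j ≤ 2 * m + 2)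
    (c2 : (wd σ m false false).count x = 2) (n2 : nn (wd σ m false false) x (t1 σ) = 2)
    (n1 : nn (wd σ m false false) x (pin j) = 2) :
    1 ≤ nn W x (pin j) ∧ (nn W x (pin j) < W.count x → A0 β) := by
  have hh := head_le hS
  obtain ⟨pa, pb, _, pd, pe, _⟩ := pst e W he
  obtain ⟨qa, qb, _, qd, qe, _⟩ := pst e (wd σ m false false) he
  have cW := pb x hx4
  have cw := qb x hx4
  have hmem : x ∈ W.flatMap (psi e) := by
    rw [ctt β hG.gw.ap _ _ hK x, ← List.count_pos_iff, cw, c2]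
    omega
  have h1 : 1 ≤ W.count x := by
    have h0 := List.count_pos_iff.2 hmem
    rw [cW] at h0
    omega
  have hxW : x ∈ W := List.count_pos_iff.1 (by omega)
  have h3 := hf x hxW hx4
  have st : t1 σ = sep (σ.headD 0) := rfl
  have sne : t1 σ ≠ e := by
    rw [st]
    exact sep_ne _ e he
  have smod : t1 σ % 5 ≠ 4 := by
    rw [st]
    exact sep_mod _
  have sW : (W.flatMap (psi e)).count (t1 σ) = 1 := by
    rw [pa _ sne smod, st]
    exact f.s1 _ hh
  have sw : ((wd σ m false false).flatMap (psi e)).count (t1 σ) = 1 := by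
    rw [qa _ sne smod, st]
    exact f1.s1 _ hh
  constructor
  · by_contra hlt
    have h0 : nn W x (pin j) = 0 := by omega
    have h5 := (tlr β hG.gw hE hP _ _ hK x (pin j) (t1 σ) sW (by rw [cW]; omega)
      (by rw [pa _ (pin_ne _ e he) (pin_mod _)]; exact f.p2 j hj)
      (by
        rw [pd (pin j) (t1 σ) (pin_ne _ e he) sne (pin_mod _) smod]
        exact f.pt j hj)
      (by rw [pe x (t1 σ) sne hx4 smod, cW, h3])).2.1 (by
        rw [pe x (pin j) (pin_ne _ e he) hx4 (pin_mod _), h0])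
    rw [qe x (pin j) (pin_ne _ e he) hx4 (pin_mod _), n1] at h5
    omega
  · intro hlt
    by_contra hA
    have h5 := (tlr β hG.gw hE hP _ _ hK.symm x (pin j) (t1 σ) sw (by rw [cw, c2]; omega)
      (by rw [qa _ (pin_ne _ e he) (pin_mod _)]; exact f1.p2 j hj)
      (by
        rw [qd (pin j) (t1 σ) (pin_ne _ e he) sne (pin_mod _) smod]
        exact f1.pt j hj)
      (by rw [qe x (t1 σ) sne hx4 smod, cw, n2, c2])).1 hA (by
        rw [qe x (pin j) (pin_ne _ e he) hx4 (pin_mod _), cw, n1, c2])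
    rw [pe x (pin j) (pin_ne _ e he) hx4 (pin_mod _), cW] at h5
    omega

theorem xfs (wxy : WxyStmt) (pst : PstStmt) (fac : FacStmt) (olr : MWGN.OlrStmt)
    (tlr : MWGN.TlrStmt) (ctt : MWF.CttStmt) (sim : MWF.SimStmt) : XfsStmt := by
  intro β hG hE hP hk σ τ m hS W
  obtain ⟨⟨a1, a2, a3⟩, ⟨b1, b2, b3⟩, hc, hcm, _⟩ := wxy σ τ m hS
  refine ⟨fun hK => ?_, fun hK => ⟨?_, fun k hkm => ?_⟩⟩
  · have f1 := (fac β hG hE hk σ τ m 1 (by omega) hS _ (kk_refl β σ m 1)).1
    have f := (fac β hG hE hk σ τ m 1 (by omega) hS W hK).1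
    exact main1 pst olr tlr ctt sim hG hE hP (by omega) hS hK f1 f 0 (m + 1) (by omega) (by omega)
      (by omega) a1 a2 a3
  · have f1 := (fac β hG hE hk σ τ m 0 (by omega) hS _ (kk_refl β σ m 0)).1
    have f := (fac β hG hE hk σ τ m 0 (by omega) hS W hK).1
    exact main1 pst olr tlr ctt sim hG hE hP (by omega) hS hK f1 f 1 0 (by omega) (by omega)
      (by omega) b1 b2 b3
  · have f1 := (fac β hG hE hk σ τ m 0 (by omega) hS _ (kk_refl β σ m 0)).1
    obtain ⟨f, hf⟩ := fac β hG hE hk σ τ m 0 (by omega) hS W hK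
    obtain ⟨c2, n2⟩ := hc k (by omega)
    exact main2 pst tlr ctt hG hE hP (by omega) hS hK f1 f (fun c hc h4 => (hf c hc h4).2) (con k)
      (m + 1) (con_mod k) (by omega) c2 n2 (hcm k hkm)

end Pool.Agent.MWLE.H33
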